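import Pool.Agent.Lib.MP_c26838_an.General
import Pool.Agent.Lib.MP_c26838_an.Disc

set_option autoImplicit false

namespace Pool.Agent.Results.MP_c26838_an.AsyStableRankOneFails

open Pool.Agent.Lib.MP_c26838_an

/-- There are commutative unital complex Banach algebras `A n` (all of them isomorphic to each
other as topological algebras) such that the asymptotic sequence algebra of `(A n)` has stable
rank one, but no `A n` has stable rank one. -/
theorem result :
    ∃ A : ℕ → UnitalBanachAlgebra,
      (∀ n, ∀ a b : A n, a * b = b * a) ∧
      (∀ m n, Nonempty (A m ≃A[ℂ] A n)) ∧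
      HasStableRankOne (Asy A) ∧
      ∀ n, ¬ HasStableRankOne (A n) := by
  obtain ⟨A, h1, h2, h3, h4⟩ := exists_renormings discAlg evalCtr
  exact ⟨A, h1, h2, h3, fun n h => not_hasStableRankOne_discAlg ((h4 n).1 h)⟩

end Pool.Agent.Results.MP_c26838_an.AsyStableRankOneFails
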